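import Mathlib
import Pool.Agent.R499.Linear

/-!
# Uniform multipliers for `∑_{k<n} (2k+1) R_{k,r}^2`

Write `F a k = ∑_i a_i C(k,i) C(k+i,i)`.  There are two operators on such functions, both symmetric
for the weight `2k+1` (the first one up to a boundary term): the lowering operator
`a_i ↦ a_{i+1}` and multiplication by `k(k+1)`.  For `R_z = F (i ↦ 1/(2i-z))`, `z` odd, this gives
relations between the sums `∑ (2k+1) R_z(k) R_{z'}(k)` modulo `n` (up to bounded denominators),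
which force the sum with `z = z' = 2r+1` to vanish modulo `n`.
-/

set_option autoImplicit false

namespace Pool.Agent.Results.MP_6f4751_nt.UniformMultiplier

open Finset Pool.Agent.R499.Linear

/-! ### The ring of rationals with denominator prime to `n` -/

/-- rationals with denominator prime to `n` -/
def Zn (n : ℕ) : Subring ℚ where
  carrier := {x | Nat.Coprime x.den n}
  mul_mem' := fun {x y} hx hy =>
    Nat.Coprime.coprime_dvd_left (Rat.mul_den_dvd x y) (Nat.Coprime.mul_left hx hy)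
  add_mem' := fun {x y} hx hy =>
    Nat.Coprime.coprime_dvd_left (Rat.add_den_dvd x y) (Nat.Coprime.mul_left hx hy)
  neg_mem' := fun {x} hx => by
    change Nat.Coprime (-x).den n
    rw [Rat.neg_den]
    exact hx
  zero_mem' := by simp
  one_mem' := by simp

lemma mem_Zn {n : ℕ} {x : ℚ} : x ∈ Zn n ↔ Nat.Coprime x.den n := Iff.rfl

lemma int_mem (n : ℕ) (z : ℤ) : (z : ℚ) ∈ Zn n := by
  rw [mem_Zn]; simp

lemma mem_of_mul {n : ℕ} {x : ℚ} (m : ℤ) (z : ℤ) (hm : IsCoprime m (n : ℤ)) (hm0 : m ≠ 0)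
    (h : (m : ℚ) * x = z) : x ∈ Zn n := by
  rw [mem_Zn]
  have hx : x = Rat.divInt z m := by
    rw [Rat.divInt_eq_div]
    have : (m : ℚ) ≠ 0 := by exact_mod_cast hm0
    field_simp
    linarith
  have h1 : ((x.den : ℕ) : ℤ) ∣ m := by
    rw [hx]; exact Rat.den_dvd z m
  have h2 : IsCoprime ((x.den : ℕ) : ℤ) (n : ℤ) := hm.of_isCoprime_of_dvd_left h1
  exact Nat.isCoprime_iff_coprime.mp h2

/-! ### Functions of `n` divisible by `n` up to bounded denominators -/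

/-- `f(n)/n` is `n`-integral up to a constant -/
def Bd (f : ℕ → ℚ) : Prop := ∃ C : ℤ, C ≠ 0 ∧ ∀ n : ℕ, 1 ≤ n → (C : ℚ) * f n / n ∈ Zn n

lemma Bd.add {f g : ℕ → ℚ} (hf : Bd f) (hg : Bd g) : Bd (fun n => f n + g n) := by
  obtain ⟨C, hC, h1⟩ := hf
  obtain ⟨D, hD, h2⟩ := hg
  refine ⟨C * D, mul_ne_zero hC hD, fun n hn => ?_⟩
  have e : ((C * D : ℤ) : ℚ) * (f n + g n) / n
      = (D : ℚ) * ((C : ℚ) * f n / n) + (C : ℚ) * ((D : ℚ) * g n / n) := by
    push_cast; ring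
  rw [e]
  exact (Zn n).add_mem ((Zn n).mul_mem (int_mem n D) (h1 n hn)) ((Zn n).mul_mem (int_mem n C) (h2 n hn))

lemma Bd.smul {f : ℕ → ℚ} (q : ℚ) (hf : Bd f) : Bd (fun n => q * f n) := by
  obtain ⟨C, hC, h1⟩ := hf
  refine ⟨C * q.den, mul_ne_zero hC (by exact_mod_cast q.den_nz), fun n hn => ?_⟩
  have hq : (q.den : ℚ) * q = q.num := by
    rw [mul_comm]; exact Rat.mul_den_eq_num q
  have e : ((C * q.den : ℤ) : ℚ) * (q * f n) / n = (q.num : ℚ) * ((C : ℚ) * f n / n) := by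
    push_cast
    rw [← hq]; ring
  rw [e]
  exact (Zn n).mul_mem (int_mem n _) (h1 n hn)

lemma Bd.zero : Bd (fun _ => 0) := ⟨1, one_ne_zero, fun n _ => by simp⟩

lemma Bd.congr {f g : ℕ → ℚ} (hf : Bd f) (h : ∀ n, 1 ≤ n → f n = g n) : Bd g := by
  obtain ⟨C, hC, h1⟩ := hf
  exact ⟨C, hC, fun n hn => by rw [← h n hn]; exact h1 n hn⟩

/-- bounded denominators at `n` and `n-1` -/
def Bi (f : ℕ → ℚ) : Prop :=
  ∃ C : ℤ, C ≠ 0 ∧ ∀ n : ℕ, 1 ≤ n → (C : ℚ) * f n ∈ Zn n ∧ (C : ℚ) * f (n - 1) ∈ Zn n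

/-- the boundary term -/
def bd (f g : ℕ → ℚ) (n : ℕ) : ℚ := (n : ℚ) / 2 * (f (n - 1) * g n - g (n - 1) * f n)

lemma Bd.bd {f g : ℕ → ℚ} (hf : Bi f) (hg : Bi g) : Bd (bd f g) := by
  obtain ⟨C, hC, h1⟩ := hf
  obtain ⟨D, hD, h2⟩ := hg
  refine ⟨2 * (C * D), by positivity, fun n hn => ?_⟩
  obtain ⟨a1, a2⟩ := h1 n hn
  obtain ⟨b1, b2⟩ := h2 n hn
  have hn0 : (n : ℚ) ≠ 0 := by exact_mod_cast (show n ≠ 0 by omega)
  have e : ((2 * (C * D) : ℤ) : ℚ) * UniformMultiplier.bd f g n / n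
      = ((C : ℚ) * f (n - 1)) * ((D : ℚ) * g n) - ((D : ℚ) * g (n - 1)) * ((C : ℚ) * f n) := by
    unfold UniformMultiplier.bd
    push_cast
    field_simp
  rw [e]
  exact (Zn n).sub_mem ((Zn n).mul_mem a2 b1) ((Zn n).mul_mem b2 a1)

/-! ### The functions `F a` -/

/-- `F a k = ∑_i a_i b_i(k)` -/
def F (a : ℕ → ℚ) (k : ℕ) : ℚ := ∑ i ∈ range (k + 1), a i * (b i k : ℚ)

lemma F_ext (a : ℕ → ℚ) {k N : ℕ} (h : k < N) : F a k = ∑ i ∈ range N, a i * (b i k : ℚ) := by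
  unfold F
  apply sum_subset (Finset.range_subset_range.mpr h)
  intro i _ hi
  rw [b_eq_zero (by simpa using hi)]
  simp

lemma coeff_rec (i k : ℕ) :
    ((k : ℤ) + 1) * b (i + 1) (k + 1) + (k : ℤ) * b (i + 1) (k - 1)
      = (2 * (k : ℤ) + 1) * b (i + 1) k + 2 * (2 * (k : ℤ) + 1) * b i k := by
  rcases Nat.eq_zero_or_pos k with rfl | hk
  · rcases Nat.eq_zero_or_pos i with rfl | hi
    · simp [b]
    · rw [b_eq_zero (show 0 + 1 < i + 1 by omega), b_eq_zero (show 0 < i + 1 by omega),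
        b_eq_zero (show 0 < i by omega)]
      simp
  · obtain ⟨k, rfl⟩ : ∃ j, k = j + 1 := ⟨k - 1, by omega⟩
    rw [show k + 1 - 1 = k by omega]
    have hi : ((i : ℤ) + 1) ^ 2 ≠ 0 := by positivity
    apply mul_left_cancel₀ hi
    have r1 := b_succ i (k + 1)
    have r2 := b_succ i (k + 2)
    have r3 := b_succ i k
    have u1 := b_up i (k + 1)
    have u2 := b_up i k
    push_cast at r1 r2 r3 u1 u2 ⊢
    rw [show k + 1 + 1 = k + 2 by ring] at u1 ⊢
    linear_combination ((k : ℤ) + 2) * r2 + ((k : ℤ) + 1) * r3 - (2 * (k : ℤ) + 3) * r1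
      + ((k : ℤ) + 2) * ((k : ℤ) + 3 + i) * u1 - ((k : ℤ) + 1) * ((k : ℤ) - i) * u2

/-- the lowering operator -/
lemma F_low (a : ℕ → ℚ) (k : ℕ) :
    ((k : ℚ) + 1) * F a (k + 1) + (k : ℚ) * F a (k - 1) - (2 * (k : ℚ) + 1) * F a k
      = 2 * (2 * (k : ℚ) + 1) * F (fun i => a (i + 1)) k := by
  rw [F_ext a (show k + 1 < k + 1 + 1 by omega), F_ext a (show k - 1 < k + 1 + 1 by omega),
    F_ext a (show k < k + 1 + 1 by omega), F_ext (fun i => a (i + 1)) (show k < k + 1 by omega)]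
  rw [sum_range_succ' _ (k + 1), sum_range_succ' _ (k + 1), sum_range_succ' _ (k + 1)]
  have e2 : ∀ i ∈ range (k + 1), ((k : ℚ) + 1) * (a (i + 1) * (b (i + 1) (k + 1) : ℚ))
      + (k : ℚ) * (a (i + 1) * (b (i + 1) (k - 1) : ℚ))
      = (2 * (k : ℚ) + 1) * (a (i + 1) * (b (i + 1) k : ℚ))
        + 2 * (2 * (k : ℚ) + 1) * (a (i + 1) * (b i k : ℚ)) := by
    intro i _
    have h := congrArg (fun z : ℤ => (z : ℚ)) (coeff_rec i k)
    push_cast at h
    linear_combination a (i + 1) * h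
  have E := sum_congr rfl e2
  rw [sum_add_distrib, sum_add_distrib, ← mul_sum, ← mul_sum, ← mul_sum, ← mul_sum] at E
  simp only [b_zero]
  push_cast
  linear_combination E

/-- multiplication by `k(k+1)` -/
lemma F_T (a : ℕ → ℚ) (k : ℕ) :
    ((k : ℚ) * (k + 1)) * F a k
      = F (fun i => (i : ℚ) ^ 2 * a (i - 1) + (i : ℚ) * (i + 1) * a i) k := by
  rw [F_ext a (show k < k + 1 by omega), F_ext _ (show k < k + 1 + 1 by omega)]
  have e1 : ∀ i ∈ range (k + 1), ((k : ℚ) * (k + 1)) * (a i * (b i k : ℚ))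
      = ((i : ℚ) + 1) ^ 2 * a i * (b (i + 1) k : ℚ) + (i : ℚ) * (i + 1) * a i * (b i k : ℚ) := by
    intro i _
    have h := congrArg (fun z : ℤ => (z : ℚ)) (T_mul_b i k)
    push_cast at h
    linear_combination a i * h
  rw [mul_sum, sum_congr rfl e1, sum_add_distrib]
  have e2 : ∑ i ∈ range (k + 1), (i : ℚ) * (i + 1) * a i * (b i k : ℚ)
      = ∑ i ∈ range (k + 1 + 1), (i : ℚ) * (i + 1) * a i * (b i k : ℚ) := by
    rw [sum_range_succ _ (k + 1), b_eq_zero (show k < k + 1 by omega)]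
    simp
  rw [e2]
  have e3 : ∑ i ∈ range (k + 1), ((i : ℚ) + 1) ^ 2 * a i * (b (i + 1) k : ℚ)
      = ∑ i ∈ range (k + 1 + 1), (i : ℚ) ^ 2 * a (i - 1) * (b i k : ℚ) := by
    rw [sum_range_succ' _ (k + 1)]
    simp
  rw [e3, ← sum_add_distrib]
  apply sum_congr rfl
  intro i _
  ring

lemma F_add (a a' : ℕ → ℚ) (k : ℕ) : F (fun i => a i + a' i) k = F a k + F a' k := by
  unfold F
  rw [← sum_add_distrib]
  apply sum_congr rfl
  intro i _
  ring

lemma F_smul (q : ℚ) (a : ℕ → ℚ) (k : ℕ) : F (fun i => q * a i) k = q * F a k := by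
  unfold F
  rw [mul_sum]
  apply sum_congr rfl
  intro i _
  ring

/-- weighted inner product -/
def ip (f g : ℕ → ℚ) (n : ℕ) : ℚ := ∑ k ∈ range n, (2 * (k : ℚ) + 1) * (f k * g k)

/-- Green's formula -/
lemma green (a a' : ℕ → ℚ) (n : ℕ) :
    ip (F a) (F (fun i => a' (i + 1))) n - ip (F (fun i => a (i + 1))) (F a') n
      = bd (F a) (F a') n := by
  induction n with
  | zero => simp [ip, bd]
  | succ n ih =>
    have e1 : ip (F a) (F (fun i => a' (i + 1))) (n + 1) = ip (F a) (F (fun i => a' (i + 1))) n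
        + (2 * (n : ℚ) + 1) * (F a n * F (fun i => a' (i + 1)) n) := by
      unfold ip; rw [sum_range_succ]
    have e2 : ip (F (fun i => a (i + 1))) (F a') (n + 1) = ip (F (fun i => a (i + 1))) (F a') n
        + (2 * (n : ℚ) + 1) * (F (fun i => a (i + 1)) n * F a' n) := by
      unfold ip; rw [sum_range_succ]
    rw [e1, e2]
    have l1 := F_low a n
    have l2 := F_low a' n
    unfold bd at ih ⊢
    rw [show n + 1 - 1 = n by omega]
    push_cast
    linear_combination ih + (F a' n / 2) * l1 - (F a n / 2) * l2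

/-- symmetry of multiplication by `k(k+1)` -/
lemma ip_T (f g : ℕ → ℚ) (n : ℕ) :
    ip (fun k => ((k : ℚ) * (k + 1)) * f k) g n = ip f (fun k => ((k : ℚ) * (k + 1)) * g k) n := by
  unfold ip
  apply sum_congr rfl
  intro k _
  ring

lemma ip_comm (f g : ℕ → ℚ) (n : ℕ) : ip f g n = ip g f n := by
  unfold ip
  apply sum_congr rfl
  intro k _
  ring

/-! ### The functions `R_z` -/

/-- coefficients of `R_z` -/
def rz (z : ℤ) (i : ℕ) : ℚ := 1 / (2 * (i : ℚ) - z)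

/-- `R_z(k) = ∑_i C(k,i) C(k+i,i) / (2i - z)` -/
def R (z : ℤ) : ℕ → ℚ := F (rz z)

/-- `∑_i b_i` -/
def d0 : ℕ → ℚ := F (fun _ => 1)

/-- `∑_i i b_i` -/
def d1 : ℕ → ℚ := F (fun i => (i : ℚ))

lemma rz_shift (z : ℤ) : (fun i => rz z (i + 1)) = rz (z - 2) := by
  funext i
  unfold rz
  push_cast
  congr 1
  ring

lemma G (z z' : ℤ) (n : ℕ) :
    ip (R z) (R (z' - 2)) n - ip (R (z - 2)) (R z') n = bd (R z) (R z') n := by
  have h := green (rz z) (rz z') n
  rw [rz_shift, rz_shift] at h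
  exact h

lemma D0 (z : ℤ) (n : ℕ) : ip d0 (R (z - 2)) n - ip d0 (R z) n = bd d0 (R z) n := by
  have h := green (fun _ => 1) (rz z) n
  rw [rz_shift] at h
  exact h

lemma D1 (z : ℤ) (n : ℕ) :
    ip d1 (R (z - 2)) n - ip d1 (R z) n - ip d0 (R z) n = bd d1 (R z) n := by
  have h := green (fun i => (i : ℚ)) (rz z) n
  rw [rz_shift] at h
  have e : ip (F (fun i => ((i + 1 : ℕ) : ℚ))) (F (rz z)) n = ip d1 (R z) n + ip d0 (R z) n := by
    unfold ip
    rw [← sum_add_distrib]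
    apply sum_congr rfl
    intro k _
    have e2 : F (fun i => ((i + 1 : ℕ) : ℚ)) k = d1 k + d0 k := by
      unfold d1 d0
      rw [← F_add]
      unfold F
      apply sum_congr rfl
      intro i _
      push_cast
      ring
    rw [e2]
    change _ = (2 * (k : ℚ) + 1) * (d1 k * F (rz z) k) + (2 * (k : ℚ) + 1) * (d0 k * F (rz z) k)
    ring
  rw [e] at h
  change ip d1 (R (z - 2)) n - _ = bd d1 (R z) n at h
  linarith

lemma odd_ne {z : ℤ} (hz : z % 2 = 1) (i : ℕ) : (2 * (i : ℚ) - z) ≠ 0 := by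
  intro h
  have h1 : (2 * (i : ℤ) - z : ℤ) = 0 := by exact_mod_cast h
  omega

/-- multiplication by `4k(k+1)` on `R_z` -/
lemma T_R {z : ℤ} (hz : z % 2 = 1) (k : ℕ) :
    4 * (((k : ℚ) * (k + 1)) * R z k) = ((z : ℚ) + 2) ^ 2 * R (z + 2) k + (z : ℚ) * (z + 2) * R z k
      + 4 * d1 k + 2 * ((z : ℚ) + 2) * d0 k := by
  unfold R d0 d1
  rw [F_T]
  unfold F
  rw [mul_sum, mul_sum, mul_sum, mul_sum, mul_sum, ← sum_add_distrib, ← sum_add_distrib,
    ← sum_add_distrib]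
  apply sum_congr rfl
  intro i _
  have h0 := odd_ne hz i
  have h2 : (2 * (i : ℚ) - (z + 2 : ℤ)) ≠ 0 := odd_ne (show (z + 2) % 2 = 1 by omega) i
  push_cast at h2
  have key : 4 * ((i : ℚ) ^ 2 * rz z (i - 1) + (i : ℚ) * (i + 1) * rz z i)
      = ((z : ℚ) + 2) ^ 2 * rz (z + 2) i + (z : ℚ) * (z + 2) * rz z i + 4 * i + 2 * ((z : ℚ) + 2) := by
    unfold rz
    rcases Nat.eq_zero_or_pos i with rfl | hi
    · push_cast at h0 h2 ⊢
      have h0' : (z : ℚ) ≠ 0 := by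
        intro h; apply h0; rw [h]; ring
      have h2' : ((z : ℚ) + 2) ≠ 0 := by
        intro h; apply h2; linear_combination -h
      have e1 : (1 : ℚ) / (2 * 0 - z) = - (1 / z) := by rw [← div_neg]; congr 1; ring
      have e2 : (1 : ℚ) / (2 * 0 - (z + 2)) = - (1 / (z + 2)) := by rw [← div_neg]; congr 1; ring
      rw [e1, e2]
      field_simp
      ring
    · obtain ⟨j, rfl⟩ : ∃ j, i = j + 1 := ⟨i - 1, by omega⟩
      rw [show j + 1 - 1 = j by omega]
      have h3 : (2 * (j : ℚ) - z) ≠ 0 := odd_ne hz j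
      push_cast at h0 h2 ⊢
      have e2 : (1 : ℚ) / (2 * ((j : ℚ) + 1) - (z + 2)) = 1 / (2 * (j : ℚ) - z) := by congr 1; ring
      rw [e2]
      have hA : (2 * (j : ℚ) - z) * (1 / (2 * (j : ℚ) - z)) = 1 := mul_one_div_cancel h3
      have hB : (2 * ((j : ℚ) + 1) - z) * (1 / (2 * ((j : ℚ) + 1) - z)) = 1 := mul_one_div_cancel h0
      generalize 1 / (2 * (j : ℚ) - z) = A at *
      generalize 1 / (2 * ((j : ℚ) + 1) - z) = B at *
      linear_combination (2 * (j : ℚ) + z + 4) * hA + (2 * (j : ℚ) + 4 + z) * hB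
  linear_combination (b i k : ℚ) * key

lemma ip_T_R {z : ℤ} (hz : z % 2 = 1) (g : ℕ → ℚ) (n : ℕ) :
    4 * ip (fun k => ((k : ℚ) * (k + 1)) * R z k) g n
      = ((z : ℚ) + 2) ^ 2 * ip (R (z + 2)) g n + (z : ℚ) * (z + 2) * ip (R z) g n
      + 4 * ip d1 g n + 2 * ((z : ℚ) + 2) * ip d0 g n := by
  unfold ip
  rw [mul_sum, mul_sum, mul_sum, mul_sum, mul_sum, ← sum_add_distrib, ← sum_add_distrib,
    ← sum_add_distrib]
  apply sum_congr rfl
  intro k _
  have h := T_R hz k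
  linear_combination ((2 * (k : ℚ) + 1) * g k) * h

/-- the relation obtained from the symmetry of multiplication by `k(k+1)` -/
lemma T_rel {z z' : ℤ} (hz : z % 2 = 1) (hz' : z' % 2 = 1) (n : ℕ) :
    ((z : ℚ) + 2) ^ 2 * ip (R (z + 2)) (R z') n + (z : ℚ) * (z + 2) * ip (R z) (R z') n
      + 4 * ip d1 (R z') n + 2 * ((z : ℚ) + 2) * ip d0 (R z') n
    = ((z' : ℚ) + 2) ^ 2 * ip (R z) (R (z' + 2)) n + (z' : ℚ) * (z' + 2) * ip (R z) (R z') n
      + 4 * ip d1 (R z) n + 2 * ((z' : ℚ) + 2) * ip d0 (R z) n := by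
  rw [← ip_T_R hz (R z') n]
  have h := ip_T_R hz' (R z) n
  rw [ip_comm (R (z' + 2)) (R z), ip_comm (R z') (R z)] at h
  rw [← h, ip_T]
  rw [ip_comm]

/-! ### Bounded denominators -/

lemma X_int (r : ℕ) : ∃ D : ℤ, D ≠ 0 ∧ ∀ i : ℕ, ∃ t : ℤ,
    (D : ℚ) * (((2 * i).choose i : ℚ) * rz (2 * r + 1) i) = t := by
  induction r with
  | zero =>
    refine ⟨1, one_ne_zero, fun i => ?_⟩
    rcases Nat.eq_zero_or_pos i with rfl | hi
    · exact ⟨-1, by unfold rz; norm_num⟩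
    · obtain ⟨j, rfl⟩ : ∃ j, i = j + 1 := ⟨i - 1, by omega⟩
      have h := Nat.succ_mul_centralBinom_succ j
      simp only [Nat.centralBinom] at h
      have h' : ((j : ℚ) + 1) * ((2 * (j + 1)).choose (j + 1) : ℚ)
          = 2 * (2 * (j : ℚ) + 1) * ((2 * j).choose j : ℚ) := by exact_mod_cast h
      refine ⟨4 * ((2 * j).choose j : ℤ) - ((2 * (j + 1)).choose (j + 1) : ℤ), ?_⟩
      unfold rz
      have h0 : (2 * (j : ℚ) + 1) ≠ 0 := by positivity
      push_cast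
      rw [show (2 * ((j : ℚ) + 1) - 1) = 2 * (j : ℚ) + 1 by ring]
      field_simp
      linear_combination 2 * h'
  | succ r ih =>
    obtain ⟨D, hD, ih⟩ := ih
    refine ⟨D * (2 * r + 3), mul_ne_zero hD (by positivity), fun i => ?_⟩
    rcases Nat.eq_zero_or_pos i with rfl | hi
    · refine ⟨-D, ?_⟩
      have h0 : (2 * (r : ℚ) + 3) ≠ 0 := by positivity
      have e : rz (2 * ((r + 1 : ℕ) : ℤ) + 1) 0 = -(1 / (2 * (r : ℚ) + 3)) := by
        unfold rz
        push_cast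
        rw [← div_neg]
        congr 1
        ring
      rw [e]
      push_cast
      simp only [Nat.choose_self, Nat.cast_one, one_mul]
      field_simp
    · obtain ⟨j, rfl⟩ : ∃ j, i = j + 1 := ⟨i - 1, by omega⟩
      obtain ⟨t, ht⟩ := ih j
      have h := Nat.succ_mul_centralBinom_succ j
      simp only [Nat.centralBinom] at h
      have h' : ((j : ℚ) + 1) * ((2 * (j + 1)).choose (j + 1) : ℚ)
          = 2 * (2 * (j : ℚ) + 1) * ((2 * j).choose j : ℚ) := by exact_mod_cast h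
      have hodd : ((2 * (r : ℤ) + 1)) % 2 = 1 := by omega
      have h0 := odd_ne hodd j
      have hr : rz (2 * ((r + 1 : ℕ) : ℤ) + 1) (j + 1) = rz (2 * r + 1) j := by
        unfold rz
        push_cast
        congr 1
        ring
      rw [hr]
      -- (2(j+1)) X and (2(j+1) - (2r+3)) X are integers
      refine ⟨4 * (2 * j + 1) * t - D * ((2 * (j + 1)).choose (j + 1) : ℤ), ?_⟩
      have hrz : (2 * (j : ℚ) - (2 * r + 1)) * rz (2 * r + 1) j = 1 := by
        unfold rz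
        push_cast
        push_cast at h0
        field_simp
      push_cast
      push_cast at h0
      linear_combination (4 * (2 * (j : ℚ) + 1)) * ht
        + (2 * (D : ℚ) * rz (2 * r + 1) j) * h'
        - ((D : ℚ) * ((2 * (j + 1)).choose (j + 1) : ℚ)) * hrz

lemma b_eq (i k : ℕ) : b i k = ((k + i).choose (2 * i) : ℤ) * ((2 * i).choose i : ℤ) := by
  have h := Nat.choose_mul (n := k + i) (k := 2 * i) (s := i) (by omega)
  rw [show k + i - i = k by omega, show 2 * i - i = i by omega] at h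
  unfold b
  have h' : ((k + i).choose (2 * i) : ℤ) * ((2 * i).choose i : ℤ)
      = ((k + i).choose i : ℤ) * (k.choose i : ℤ) := by exact_mod_cast h
  rw [h']; ring

lemma Bi_pos (r : ℕ) : Bi (R (2 * r + 1)) := by
  obtain ⟨D, hD, h⟩ := X_int r
  have key : ∀ k n : ℕ, (D : ℚ) * R (2 * r + 1) k ∈ Zn n := by
    intro k n
    unfold R F
    rw [mul_sum]
    apply (Zn n).sum_mem
    intro i _
    obtain ⟨t, ht⟩ := h i
    have e : (D : ℚ) * (rz (2 * r + 1) i * (b i k : ℚ)) = (((k + i).choose (2 * i) * t : ℤ) : ℚ) := by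
      rw [b_eq]
      push_cast
      rw [← ht]
      ring
    rw [e]
    exact int_mem n _
  exact ⟨D, hD, fun n _ => ⟨key n n, key (n - 1) n⟩⟩

lemma R_neg_mem (m n : ℕ) (h : IsCoprime (2 * (m : ℤ) + 1) (n : ℤ)) : R (-1) m ∈ Zn n := by
  unfold R F
  apply (Zn n).sum_mem
  intro i _
  have h1 := ch_rel (m + i) (2 * i)
  push_cast at h1
  apply mem_of_mul (2 * (m : ℤ) + 1)
    (2 * (((m + i).choose (2 * i + 1) : ℤ) * ((2 * i).choose i : ℤ)) + b i m) h (by positivity)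
  have h0 : (2 * (i : ℚ) + 1) ≠ 0 := by positivity
  have h1' : (2 * (i : ℚ) + 1) * ((m + i).choose (2 * i + 1) : ℚ)
      = ((m : ℚ) + i - 2 * i) * ((m + i).choose (2 * i) : ℚ) := by exact_mod_cast h1
  rw [b_eq]
  unfold rz
  push_cast
  rw [show (2 * (i : ℚ) - -1) = 2 * (i : ℚ) + 1 by ring]
  field_simp
  linear_combination (-2 * ((2 * i).choose i : ℚ)) * h1'

lemma Bi_neg : Bi (R (-1)) := by
  refine ⟨1, one_ne_zero, fun n hn => ⟨?_, ?_⟩⟩
  · rw [Int.cast_one, one_mul]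
    exact R_neg_mem n n ⟨1, -2, by ring⟩
  · rw [Int.cast_one, one_mul]
    apply R_neg_mem (n - 1) n
    obtain ⟨m, rfl⟩ : ∃ m, n = m + 1 := ⟨n - 1, by omega⟩
    rw [show m + 1 - 1 = m by omega]
    exact ⟨-1, 2, by push_cast; ring⟩

lemma Bi_R {z : ℤ} (hz : z % 2 = 1) (h : -1 ≤ z) : Bi (R z) := by
  rcases eq_or_lt_of_le h with h1 | h1
  · rw [← h1]; exact Bi_neg
  · obtain ⟨r, hr⟩ : ∃ r : ℕ, z = 2 * r + 1 := ⟨(z / 2).toNat, by omega⟩
    rw [hr]; exact Bi_pos r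

lemma Bi_int (f : ℕ → ℚ) (h : ∀ k, ∃ t : ℤ, f k = t) : Bi f := by
  refine ⟨1, one_ne_zero, fun n _ => ⟨?_, ?_⟩⟩
  · obtain ⟨t, ht⟩ := h n
    rw [ht, Int.cast_one, one_mul]; exact int_mem n t
  · obtain ⟨t, ht⟩ := h (n - 1)
    rw [ht, Int.cast_one, one_mul]; exact int_mem n t

lemma Bi_d0 : Bi d0 := by
  apply Bi_int
  intro k
  refine ⟨∑ i ∈ range (k + 1), b i k, ?_⟩
  unfold d0 F
  push_cast
  simp

lemma Bi_d1 : Bi d1 := by
  apply Bi_int
  intro k
  refine ⟨∑ i ∈ range (k + 1), (i : ℤ) * b i k, ?_⟩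
  unfold d1 F
  push_cast
  rfl

/-! ### The relations modulo `n` -/

/-- index `t ↦ 2t-3` -/
def ix (t : ℕ) : ℤ := 2 * (t : ℤ) - 3

lemma ix_odd (t : ℕ) : ix t % 2 = 1 := by unfold ix; omega

/-- `ip d0 R_z` does not depend on `z` -/
lemma relA (t : ℕ) : Bd (fun n => ip d0 (R (ix t)) n - ip d0 (R (ix (t + 1))) n) := by
  have h := Bd.bd Bi_d0 (Bi_R (ix_odd (t + 1)) (by unfold ix; push_cast; omega))
  refine h.congr fun n _ => ?_
  rw [← D0 (ix (t + 1)) n, show ix (t + 1) - 2 = ix t by unfold ix; push_cast; ring]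

lemma relB (t : ℕ) : Bd (fun n => ip d1 (R (ix t)) n - ip d1 (R (ix (t + 1))) n
    - ip d0 (R (ix (t + 1))) n) := by
  have h := Bd.bd Bi_d1 (Bi_R (ix_odd (t + 1)) (by unfold ix; push_cast; omega))
  refine h.congr fun n _ => ?_
  rw [← D1 (ix (t + 1)) n, show ix (t + 1) - 2 = ix t by unfold ix; push_cast; ring]

lemma relG (s t : ℕ) (hs : 1 ≤ s) :
    Bd (fun n => ip (R (ix (s + 1))) (R (ix t)) n - ip (R (ix s)) (R (ix (t + 1))) n) := by
  have h := Bd.bd (Bi_R (ix_odd (s + 1)) (by unfold ix; push_cast; omega))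
    (Bi_R (ix_odd (t + 1)) (by unfold ix; push_cast; omega))
  refine h.congr fun n _ => ?_
  rw [← G (ix (s + 1)) (ix (t + 1)) n, show ix (t + 1) - 2 = ix t by unfold ix; push_cast; ring,
    show ix (s + 1) - 2 = ix s by unfold ix; push_cast; ring]

/-- `c = ip d0 R_1`, `e = ip d1 R_1` -/
lemma relA' (t : ℕ) : Bd (fun n => ip d0 (R (ix (t + 2))) n - ip d0 (R 1) n) := by
  induction t with
  | zero =>
    refine Bd.zero.congr fun n _ => ?_
    rw [show ix (0 + 2) = 1 by unfold ix; norm_num]; ring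
  | succ t ih =>
    refine (ih.add ((relA (t + 2)).smul (-1))).congr fun n _ => ?_
    rw [show t + 2 + 1 = t + 1 + 2 by ring]
    ring

lemma relB' (t : ℕ) : Bd (fun n => ip d1 (R (ix (t + 2))) n - ip d1 (R 1) n
    + (t : ℚ) * ip d0 (R 1) n) := by
  induction t with
  | zero =>
    refine Bd.zero.congr fun n _ => ?_
    rw [show ix (0 + 2) = 1 by unfold ix; norm_num]; push_cast; ring
  | succ t ih =>
    refine ((ih.add ((relB (t + 2)).smul (-1))).add ((relA' (t + 1)).smul (-1))).congr fun n _ => ?_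
    rw [show t + 2 + 1 = t + 1 + 2 by ring]
    push_cast
    ring

/-- the values at `z = -1` and `z = -3` -/
lemma relA1 : Bd (fun n => ip d0 (R (-1)) n - ip d0 (R 1) n) := by
  refine (relA 1).congr fun n _ => ?_
  rw [show ix 1 = -1 by unfold ix; norm_num, show ix (1 + 1) = 1 by unfold ix; norm_num]

lemma relA0 : Bd (fun n => ip d0 (R (-3)) n - ip d0 (R 1) n) := by
  refine ((relA 0).add relA1).congr fun n _ => ?_
  rw [show ix 0 = -3 by unfold ix; norm_num, show ix (0 + 1) = -1 by unfold ix; norm_num]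
  ring

lemma relB1 : Bd (fun n => ip d1 (R (-1)) n - ip d1 (R 1) n - ip d0 (R 1) n) := by
  refine (relB 1).congr fun n _ => ?_
  rw [show ix 1 = -1 by unfold ix; norm_num, show ix (1 + 1) = 1 by unfold ix; norm_num]

lemma relB0 : Bd (fun n => ip d1 (R (-3)) n - ip d1 (R 1) n - 2 * ip d0 (R 1) n) := by
  refine (((relB 0).add relB1).add relA1).congr fun n _ => ?_
  rw [show ix 0 = -3 by unfold ix; norm_num, show ix (0 + 1) = -1 by unfold ix; norm_num]
  ring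

/-- `v(1) ≡ -2c` -/
lemma v_base : Bd (fun n => ip (R 1) (R (-1)) n + 2 * ip d0 (R 1) n) := by
  have hG : Bd (fun n => ip (R 3) (R (-3)) n - ip (R 1) (R (-1)) n) := by
    refine (relG 2 0 (by norm_num)).congr fun n _ => ?_
    rw [show ix (2 + 1) = 3 by unfold ix; norm_num, show ix 0 = -3 by unfold ix; norm_num,
      show ix 2 = 1 by unfold ix; norm_num, show ix (0 + 1) = -1 by unfold ix; norm_num]
  refine ((((hG.smul (-9 / 8)).add (relB0.smul (-4 / 8))).add (relA0.smul (-6 / 8)))).congr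
    fun n _ => ?_
  have h := T_rel (z := 1) (z' := -3) (by norm_num) (by norm_num) n
  rw [show (1 : ℤ) + 2 = 3 by norm_num, show (-3 : ℤ) + 2 = -1 by norm_num] at h
  push_cast at h
  rw [ip_comm (R 1) (R (-1))] at h ⊢
  linear_combination (-1 / 8) * h

/-- the recursion for `v(z) = ip R_z R_{-1}` -/
lemma v_rec (t : ℕ) : Bd (fun n => ((t : ℚ) + 2) * ip (R (ix (t + 3))) (R (-1)) n
    + ((t : ℚ) + 1) * ip (R (ix (t + 2))) (R (-1)) n + 2 * ip d0 (R 1) n) := by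
  have hG : Bd (fun n => ip (R (ix (t + 3))) (R (-1)) n - ip (R (ix (t + 2))) (R 1) n) := by
    refine (relG (t + 2) 1 (by omega)).congr fun n _ => ?_
    rw [show ix 1 = -1 by unfold ix; norm_num, show ix (1 + 1) = 1 by unfold ix; norm_num]
  have ht : ((t : ℚ) + 1) ≠ 0 := by positivity
  have hcomb := ((((hG.smul (-1 / (4 * ((t : ℚ) + 1)))).add (relB1.smul (-1 / ((t : ℚ) + 1)))).add
    ((relB' t).smul (1 / ((t : ℚ) + 1)))).add (relA1.smul (-(2 * (2 * (t : ℚ) + 3)) / (4 * ((t : ℚ) + 1))))).add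
    ((relA' t).smul (2 / (4 * ((t : ℚ) + 1))))
  refine hcomb.congr fun n _ => ?_
  have h := T_rel (z := ix (t + 2)) (z' := -1) (ix_odd _) (by norm_num) n
  rw [show ix (t + 2) + 2 = ix (t + 3) by unfold ix; push_cast; ring,
    show (-1 : ℤ) + 2 = 1 by norm_num] at h
  have hz : ((ix (t + 2) : ℤ) : ℚ) = 2 * (t : ℚ) + 1 := by unfold ix; push_cast; ring
  rw [hz] at h
  push_cast at h
  field_simp
  linear_combination -h

/-- `(t+1) v(ix (t+2)) ≡ -2c` for even `t` and `≡ 0` for odd `t` -/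
lemma v_even_odd (j : ℕ) :
    Bd (fun n => (2 * (j : ℚ) + 1) * ip (R (ix (2 * j + 2))) (R (-1)) n + 2 * ip d0 (R 1) n) ∧
    Bd (fun n => (2 * (j : ℚ) + 2) * ip (R (ix (2 * j + 3))) (R (-1)) n) := by
  have step : ∀ j : ℕ,
      Bd (fun n => (2 * (j : ℚ) + 1) * ip (R (ix (2 * j + 2))) (R (-1)) n + 2 * ip d0 (R 1) n) →
      Bd (fun n => (2 * (j : ℚ) + 2) * ip (R (ix (2 * j + 3))) (R (-1)) n) := by
    intro j h
    refine ((v_rec (2 * j)).add (h.smul (-1))).congr fun n _ => ?_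
    push_cast
    ring
  induction j with
  | zero =>
    have h0 : Bd (fun n => (2 * ((0 : ℕ) : ℚ) + 1) * ip (R (ix (2 * 0 + 2))) (R (-1)) n
        + 2 * ip d0 (R 1) n) := by
      refine v_base.congr fun n _ => ?_
      rw [show ix (2 * 0 + 2) = 1 by unfold ix; norm_num]
      push_cast
      ring
    exact ⟨h0, step 0 h0⟩
  | succ j ih =>
    have h1 : Bd (fun n => (2 * ((j + 1 : ℕ) : ℚ) + 1) * ip (R (ix (2 * (j + 1) + 2))) (R (-1)) n
        + 2 * ip d0 (R 1) n) := by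
      refine ((v_rec (2 * j + 1)).add (ih.2.smul (-1))).congr fun n _ => ?_
      rw [show 2 * j + 1 + 3 = 2 * (j + 1) + 2 by ring, show 2 * j + 1 + 2 = 2 * j + 3 by ring]
      push_cast
      ring
    exact ⟨h1, step (j + 1) h1⟩

/-- moving indices -/
lemma chain (r j : ℕ) (hj : j ≤ r + 1) :
    Bd (fun n => ip (R (ix (r + 2 + j))) (R (ix (r + 2 - j))) n
      - ip (R (ix (r + 2))) (R (ix (r + 2))) n) := by
  induction j with
  | zero =>
    refine Bd.zero.congr fun n _ => ?_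
    simp
  | succ j ih =>
    have h := relG (r + 2 + j) (r + 2 - (j + 1)) (by omega)
    rw [show r + 2 - (j + 1) + 1 = r + 2 - j by omega] at h
    refine (h.add (ih (by omega))).congr fun n _ => ?_
    rw [show r + 2 + (j + 1) = r + 2 + j + 1 by ring]
    ring

theorem main (r : ℕ) : Bd (fun n => ip (R (2 * r + 1)) (R (2 * r + 1)) n) := by
  have h1 := (v_even_odd r).2
  have h2 := chain r (r + 1) le_rfl
  have h0 : (2 * (r : ℚ) + 2) ≠ 0 := by positivity
  refine ((h1.smul (1 / (2 * (r : ℚ) + 2))).add (h2.smul (-1))).congr fun n _ => ?_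
  rw [show r + 2 - (r + 1) = 1 by omega, show r + 2 + (r + 1) = 2 * r + 3 by ring,
    show ix 1 = -1 by unfold ix; norm_num,
    show ix (r + 2) = 2 * r + 1 by unfold ix; push_cast; ring]
  field_simp
  ring

/-! ### The statement -/

/-- `R_{n,r} = ∑_{k=0}^n C(n+k,2k) C(2k,k) / (2k-2r-1)` -/
def Rnr (n r : ℕ) : ℚ :=
  ∑ k ∈ range (n + 1), ((n + k).choose (2 * k) : ℚ) * ((2 * k).choose k : ℚ) * (1 / (2 * (k : ℚ) - 2 * r - 1))

/-- `S_{n,r} = ∑_{k=0}^{n-1} (2k+1) R_{k,r}^2` -/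
def S (n r : ℕ) : ℚ := ∑ k ∈ range n, (2 * (k : ℚ) + 1) * Rnr k r ^ 2

/-- the congruence `x ≡ 0 (mod n)` for a rational `x`: `x/n` is a fraction with denominator prime
to `n` -/
def CongZero (x : ℚ) (n : ℕ) : Prop :=
  ∃ (u : ℤ) (v : ℕ), v ≠ 0 ∧ Nat.Coprime v n ∧ x / n = (u : ℚ) / v

lemma Rnr_eq (n r : ℕ) : Rnr n r = R (2 * r + 1) n := by
  unfold Rnr R F rz
  apply sum_congr rfl
  intro k _
  rw [b_eq]
  push_cast
  rw [show 2 * (k : ℚ) - 2 * r - 1 = 2 * (k : ℚ) - (2 * r + 1) by ring]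
  ring

/-- **Q1 is true**: for every `r ≥ 1` there is a nonzero integer `a_r` with
`a_r S_{n,r} ≡ 0 (mod n)` for all `n ≥ 1`. -/
theorem result : ∀ r : ℕ, 1 ≤ r → ∃ a : ℤ, a ≠ 0 ∧ ∀ n : ℕ, 1 ≤ n → CongZero ((a : ℚ) * S n r) n := by
  intro r _
  obtain ⟨C, hC, h⟩ := main r
  refine ⟨C, hC, fun n hn => ?_⟩
  have h1 := h n hn
  have e : ip (R (2 * r + 1)) (R (2 * r + 1)) n = S n r := by
    unfold ip S
    apply sum_congr rfl
    intro k _
    rw [Rnr_eq]
    ring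
  beta_reduce at h1
  rw [e, mem_Zn] at h1
  exact ⟨_, _, Rat.den_nz _, h1, (Rat.num_div_den _).symm⟩

end Pool.Agent.Results.MP_6f4751_nt.UniformMultiplier
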